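import Pool.Agent.Helper26.KD.St

/-! # Project CB (MP_65faa7, bulk case), module W: elementary facts on the weights -/

set_option autoImplicit false

open scoped BigOperators ENNReal Topology
open Pool.LE Pool.NL Filter

namespace Pool.KD

namespace WM

theorem sq_nonneg' {d : ℕ} (x : Zd d) : 0 ≤ LE.sq x := by
  unfold LE.sq
  exact Finset.sum_nonneg fun i _ => sq_nonneg _

theorem nn_sq {d : ℕ} (x : Zd d) : nn x ^ 2 = LE.sq x := by
  unfold nn
  exact Real.sq_sqrt (sq_nonneg' x)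

theorem nn_nonneg {d : ℕ} (x : Zd d) : 0 ≤ nn x := Real.sqrt_nonneg _

theorem nn_neg {d : ℕ} (x : Zd d) : nn (-x) = nn x := by
  unfold nn LE.sq
  simp

theorem sq_add {d : ℕ} (x y : Zd d) : LE.sq (x + y) = LE.sq x + 2 * dt x y + LE.sq y := by
  unfold LE.sq dt
  rw [Finset.mul_sum, ← Finset.sum_add_distrib, ← Finset.sum_add_distrib]
  refine Finset.sum_congr rfl fun i _ => ?_
  rw [Pi.add_apply]
  push_cast
  ring

theorem sq_sub {d : ℕ} (x y : Zd d) : LE.sq (x - y) = LE.sq x - 2 * dt x y + LE.sq y := by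
  unfold LE.sq dt
  rw [Finset.mul_sum, ← Finset.sum_sub_distrib, ← Finset.sum_add_distrib]
  refine Finset.sum_congr rfl fun i _ => ?_
  rw [Pi.sub_apply]
  push_cast
  ring

theorem dt_le {d : ℕ} (x y : Zd d) : |dt x y| ≤ nn x * nn y := by
  have h1 : dt x y ^ 2 ≤ LE.sq x * LE.sq y := by
    unfold dt LE.sq
    exact Finset.sum_mul_sq_le_sq_mul_sq _ _ _
  have h2 : |dt x y| ^ 2 ≤ (nn x * nn y) ^ 2 := by
    rw [sq_abs, mul_pow, nn_sq, nn_sq]
    exact h1
  exact le_of_sq_le_sq h2 (mul_nonneg (nn_nonneg x) (nn_nonneg y))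

theorem nn_add {d : ℕ} (x y : Zd d) : nn (x + y) ≤ nn x + nn y := by
  have h1 : nn (x + y) ^ 2 ≤ (nn x + nn y) ^ 2 := by
    have h2 := (abs_le.1 (dt_le x y)).2
    have h3 := nn_sq x
    have h4 := nn_sq y
    rw [nn_sq, sq_add]
    nlinarith
  exact le_of_sq_le_sq h1 (add_nonneg (nn_nonneg x) (nn_nonneg y))

theorem gen {a b c s : ℝ} (ha : 0 < a) (hb : 0 < b) (hc : 0 < c) (hs : 0 ≤ s)
    (h : b ≤ c ^ 2 * a) : a ^ (-(s / 2)) ≤ c ^ s * b ^ (-(s / 2)) := by
  have h1 : b ^ (s / 2) ≤ c ^ s * a ^ (s / 2) := by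
    calc b ^ (s / 2) ≤ (c ^ 2 * a) ^ (s / 2) := Real.rpow_le_rpow hb.le h (by linarith)
      _ = c ^ s * a ^ (s / 2) := by
        rw [Real.mul_rpow (sq_nonneg c) ha.le, ← Real.rpow_natCast c 2, ← Real.rpow_mul hc.le]
        congr 2
        push_cast
        ring
  have ha' : 0 < a ^ (s / 2) := Real.rpow_pos_of_pos ha _
  have hb' : 0 < b ^ (s / 2) := Real.rpow_pos_of_pos hb _
  rw [Real.rpow_neg ha.le, Real.rpow_neg hb.le]
  rw [← div_eq_mul_inv, inv_eq_one_div, div_le_div_iff₀ ha' hb', one_mul]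
  exact h1

theorem sqp {u : ℝ} (hu : 0 ≤ u) (s : ℝ) : (u ^ 2) ^ (-(s / 2)) = u ^ (-s) := by
  rw [← Real.rpow_natCast u 2, ← Real.rpow_mul hu]
  congr 1
  push_cast
  ring

theorem qq_eq {d : ℕ} (m : ℝ) (x : Zd d) : qq m x = 1 + (nn x / m) ^ 2 := by
  unfold qq
  rw [div_pow, nn_sq]

theorem one_le_qq {d : ℕ} (m : ℝ) (x : Zd d) : 1 ≤ qq m x := by
  rw [qq_eq]
  have := sq_nonneg (nn x / m)
  linarith

theorem qq_pos {d : ℕ} (m : ℝ) (x : Zd d) : 0 < qq m x := lt_of_lt_of_le one_pos (one_le_qq m x)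

end WM

open WM

theorem hW : StW := by
  intro d m hm
  have hm0 : 0 < m := by linarith
  have hnm : ∀ x : Zd d, 0 ≤ nn x / m := fun x => div_nonneg (nn_nonneg x) hm0.le
  have q1 : ∀ x : Zd d, qq m x ≤ (1 + nn x / m) ^ 2 := by
    intro x
    rw [qq_eq]
    nlinarith [hnm x]
  have q2 : ∀ x : Zd d, (1 + nn x / m) ^ 2 ≤ 2 * qq m x := by
    intro x
    rw [qq_eq]
    nlinarith [sq_nonneg (1 - nn x / m)]
  have qneg : ∀ x : Zd d, qq m (-x) = qq m x := by
    intro x
    rw [qq_eq, qq_eq, nn_neg]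
  have ntri : ∀ x y : Zd d, nn x ≤ nn (x - y) + nn y := by
    intro x y
    have h := nn_add (x - y) y
    rwa [sub_add_cancel] at h
  have peetre : ∀ x y : Zd d, 1 + nn x / m ≤ (1 + nn (x - y) / m) * (1 + nn y / m) := by
    intro x y
    have h1 : nn x / m ≤ nn (x - y) / m + nn y / m := by
      rw [← add_div]
      exact div_le_div_of_nonneg_right (ntri x y) hm0.le
    nlinarith [mul_nonneg (hnm (x - y)) (hnm y)]
  refine ⟨fun x => ⟨one_le_qq m x, nn_nonneg x, nn_sq x, nn_neg x, q1 x, q2 x⟩, ?_, ?_, ?_, ?_,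
    ?_, ?_, ?_⟩
  · intro x y
    refine ⟨nn_add x y, dt_le x y, ?_⟩
    unfold qq
    rw [sq_sub]
    ring
  · intro s x hs
    refine ⟨Real.rpow_pos_of_pos (qq_pos m x) _, ?_, ?_⟩
    · exact Real.rpow_le_one_of_one_le_of_nonpos (one_le_qq m x) (by linarith)
    · unfold ww
      rw [qneg]
  · intro s t x hst
    exact Real.rpow_le_rpow_of_exponent_le (one_le_qq m x) (by linarith)
  · intro s t x
    unfold ww
    rw [← Real.rpow_add (qq_pos m x)]
    congr 1
    ring
  · intro s x y hs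
    have h1 : 0 < 1 + nn y / m := by linarith [hnm y]
    have h2 : qq m x ≤ (2 * (1 + nn y / m)) ^ 2 * qq m (x - y) := by
      have h3 : (1 + nn x / m) ^ 2 ≤ ((1 + nn (x - y) / m) * (1 + nn y / m)) ^ 2 :=
        pow_le_pow_left₀ (by linarith [hnm x]) (peetre x y) 2
      have h4 := q1 x
      have h5 := q2 (x - y)
      have h6 : 0 ≤ (1 + nn y / m) ^ 2 := sq_nonneg _
      calc qq m x ≤ (1 + nn x / m) ^ 2 := h4
        _ ≤ (1 + nn (x - y) / m) ^ 2 * (1 + nn y / m) ^ 2 := by rw [← mul_pow]; exact h3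
        _ ≤ (2 * qq m (x - y)) * (1 + nn y / m) ^ 2 := mul_le_mul_of_nonneg_right h5 h6
        _ ≤ (2 * (1 + nn y / m)) ^ 2 * qq m (x - y) := by
          nlinarith [mul_nonneg (qq_pos m (x - y)).le h6]
    have h7 := gen (qq_pos m (x - y)) (qq_pos m x) (by positivity : 0 < 2 * (1 + nn y / m)) hs h2
    rw [Real.mul_rpow (by norm_num) h1.le] at h7
    exact h7
  · intro s x y hs hxy
    have h2 : qq m x ≤ 8 ^ 2 * qq m (x - y) := by
      rcases le_or_gt (nn x) (2 * m) with h | h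
      · have h3 : nn x / m ≤ 2 := by rwa [div_le_iff₀ hm0]
        have h4 := one_le_qq m (x - y)
        rw [qq_eq m x]
        nlinarith [hnm x]
      · have h3 : nn x ≤ 4 * nn (x - y) := by linarith [ntri x y]
        have h4 : nn x / m ≤ 4 * (nn (x - y) / m) := by
          rw [← mul_div_assoc]
          exact div_le_div_of_nonneg_right h3 hm0.le
        rw [qq_eq m x, qq_eq m (x - y)]
        nlinarith [hnm x, hnm (x - y)]
    exact gen (qq_pos m (x - y)) (qq_pos m x) (by norm_num : (0 : ℝ) < 8) hs h2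
  · intro s x hs
    have h1 : 0 < 1 + nn x / m := by linarith [hnm x]
    constructor
    · have h3 := gen (by positivity : 0 < (1 + nn x / m) ^ 2) (qq_pos m x) one_pos hs
        (by rw [one_pow, one_mul]; exact q1 x)
      rw [sqp h1.le, Real.one_rpow, one_mul] at h3
      exact h3
    · have h3 := gen (qq_pos m x) (by positivity : 0 < (1 + nn x / m) ^ 2)
        (by norm_num : (0 : ℝ) < 2) hs (by
          have h4 := q2 x
          have h5 := qq_pos m x
          linarith)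
      rw [sqp h1.le] at h3
      exact h3

end Pool.KD
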